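import Mathlib

set_option autoImplicit false

namespace Pool.Agent.MP_ee26cf_co

open Finset

variable {V : Type}

/-- Proper colourings with colours in `Fin k`. -/
def Col (G : SimpleGraph V) (k : ℕ) : Type := {c : V → Fin k // ∀ u v, G.Adj u v → c u ≠ c v}

instance [Finite V] (G : SimpleGraph V) (k : ℕ) : Finite (Col G k) := Subtype.finite

lemma card_le_of_cover {A D Z : Type} [Finite D] (g : A → Z) (hg : Function.Injective g)
    (f : D → Z) (h : ∀ a, ∃ d, f d = g a) : Nat.card A ≤ Nat.card D := by
  choose r hr using h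
  refine Nat.card_le_card_of_injective r fun a b hab => hg ?_
  rw [← hr, ← hr, hab]

lemma colorable_iff (G : SimpleGraph V) (k : ℕ) : G.Colorable k ↔ Nonempty (Col G k) :=
  ⟨fun ⟨c⟩ => ⟨⟨c, fun _ _ h => c.valid h⟩⟩,
   fun ⟨c⟩ => ⟨SimpleGraph.Coloring.mk c.1 (fun h => c.2 _ _ h)⟩⟩

lemma miss {m : ℕ} (c : V → Fin (m + 1)) (i : Fin (m + 1)) (h : ∀ v, c v ≠ i) :
    ∃ c' : V → Fin m, ∀ v, i.succAbove (c' v) = c v := by
  choose c' hc' using fun v => Fin.exists_succAbove_eq (h v)
  exact ⟨c', hc'⟩

/-- The graph with one more vertex, joined to all old vertices. -/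
def cone (G : SimpleGraph V) : SimpleGraph (Option V) where
  Adj a b := match a, b with
    | some u, some v => G.Adj u v
    | none, some _ => True
    | some _, none => True
    | none, none => False
  symm := ⟨fun a b => by
    cases a <;> cases b <;> simp [SimpleGraph.adj_comm]⟩
  loopless := ⟨fun a => by cases a <;> simp⟩

lemma cone_lower [Finite V] (G : SimpleGraph V) (k : ℕ) :
    Nat.card (Col G k) ≤ Nat.card (Col (cone G) (k + 1)) := by
  refine Nat.card_le_card_of_injective
    (fun c => ⟨fun a => a.elim (Fin.last k) (fun v => (c.1 v).castSucc), ?_⟩) ?_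
  · intro a b hab
    cases a <;> cases b
    · exact hab.elim
    · exact (Fin.castSucc_ne_last _).symm
    · exact Fin.castSucc_ne_last _
    · exact fun h => c.2 _ _ hab (Fin.castSucc_injective _ h)
  · intro c d h
    apply Subtype.ext
    funext v
    exact Fin.castSucc_injective _ (congrFun (congrArg Subtype.val h) (some v))

lemma cone_upper [Finite V] (G : SimpleGraph V) (k : ℕ) :
    Nat.card (Col (cone G) (k + 1)) ≤ (k + 1) * Nat.card (Col G k) := by
  have h := card_le_of_cover (A := Col (cone G) (k + 1)) (D := Fin (k + 1) × Col G k)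
    Subtype.val Subtype.val_injective
    (fun d a => a.elim d.1 (fun v => d.1.succAbove (d.2.1 v))) (by
      intro c
      obtain ⟨c', hc'⟩ := miss (fun v => c.1 (some v)) (c.1 none)
        (fun v => c.2 (some v) none trivial)
      refine ⟨(c.1 none, ⟨c', fun u v huv h => c.2 (some u) (some v) huv ?_⟩), ?_⟩
      · rw [← hc', ← hc', h]
      · funext a
        cases a
        · rfl
        · exact hc' _)
  simpa using h

variable [Fintype V] [DecidableEq V]

/-- Partitions of the vertex set into `k` independent sets. -/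
def Ptn (G : SimpleGraph V) (k : ℕ) : Set (Finpartition (univ : Finset V)) :=
  {P | P.parts.card = k ∧ ∀ s ∈ P.parts, G.IsIndepSet (↑s : Set V)}

noncomputable def canon {G : SimpleGraph V} {k : ℕ} (P : Ptn G k) (v : V) : Fin k :=
  Finset.equivFinOfCardEq P.2.1 ⟨P.1.part v, P.1.part_mem.2 (mem_univ v)⟩

lemma canon_eq {G : SimpleGraph V} {k : ℕ} (P : Ptn G k) (u v : V) :
    canon P u = canon P v ↔ u ∈ P.1.part v := by
  unfold canon
  rw [Equiv.apply_eq_iff_eq, Subtype.mk.injEq,
    P.1.mem_part_iff_part_eq_part (mem_univ _) (mem_univ _)]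

lemma ptn_le (G : SimpleGraph V) (k : ℕ) : (Ptn G k).ncard ≤ Nat.card (Col G k) := by
  rw [← Nat.card_coe_set_eq]
  refine Nat.card_le_card_of_injective (fun P => ⟨canon P, fun u v huv h => ?_⟩) ?_
  · have hu := (canon_eq P u v).1 h
    have hv : v ∈ P.1.part v := P.1.mem_part (mem_univ v)
    exact P.2.2 _ (P.1.part_mem.2 (mem_univ v)) hu hv huv.ne huv
  · intro P Q h
    have h' : canon P = canon Q := congrArg Subtype.val h
    have hp : ∀ v, P.1.part v = Q.1.part v := fun v => by
      ext u
      rw [← canon_eq, ← canon_eq, h']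
    apply Subtype.ext
    ext s
    constructor
    · intro hs
      obtain ⟨v, _, rfl⟩ := P.1.part_surjOn hs
      rw [hp]; exact Q.1.part_mem.2 (mem_univ v)
    · intro hs
      obtain ⟨v, _, rfl⟩ := Q.1.part_surjOn hs
      rw [← hp]; exact P.1.part_mem.2 (mem_univ v)

lemma ptn_of_surj {G : SimpleGraph V} {k : ℕ} (c : Col G k) (hc : Function.Surjective c.1) :
    ∃ P : Ptn G k, ∀ u v, u ∈ P.1.part v → c.1 u = c.1 v := by
  let cl : Fin k → Finset V := fun i => univ.filter (fun v => c.1 v = i)
  have inj : Function.Injective cl := fun i j h => by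
    obtain ⟨v, rfl⟩ := hc i
    have : v ∈ cl j := h ▸ (by simp [cl])
    simpa [cl] using this
  let P : Finpartition (univ : Finset V) := Finpartition.ofExistsUnique (univ.image cl)
    (fun _ _ => subset_univ _)
    (fun a _ => ⟨cl (c.1 a), ⟨mem_image_of_mem _ (mem_univ _), by simp [cl]⟩, by
      rintro t ⟨ht, hat⟩
      obtain ⟨i, _, rfl⟩ := mem_image.1 ht
      have : c.1 a = i := by simpa [cl] using hat
      rw [this]⟩)
    (by
      intro h
      obtain ⟨i, _, hi⟩ := mem_image.1 h
      obtain ⟨v, rfl⟩ := hc i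
      have : v ∈ cl (c.1 v) := by simp [cl]
      rw [hi] at this
      simp at this)
  have hP : P.parts = univ.image cl := rfl
  refine ⟨⟨P, ?_, ?_⟩, ?_⟩
  · rw [hP, Finset.card_image_of_injective _ inj]; simp
  · intro s hs
    obtain ⟨i, _, rfl⟩ := mem_image.1 hs
    intro u hu v hv _ huv
    have h1 : c.1 u = i := by simpa [cl] using hu
    have h2 : c.1 v = i := by simpa [cl] using hv
    exact c.2 u v huv (h1.trans h2.symm)
  · intro u v huv
    have : P.part v = cl (c.1 v) :=
      P.part_eq_of_mem (mem_image_of_mem _ (mem_univ _)) (by simp [cl])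
    change u ∈ P.part v at huv
    rw [this] at huv
    simpa [cl] using huv

lemma ptn_pos {G : SimpleGraph V} {k : ℕ} (c : Col G k) (hc : Function.Surjective c.1) :
    0 < (Ptn G k).ncard := by
  obtain ⟨P, _⟩ := ptn_of_surj c hc
  exact (Set.ncard_pos (Set.toFinite _)).2 ⟨P.1, P.2⟩

lemma col_le (G : SimpleGraph V) (m : ℕ) :
    Nat.card (Col G (m + 1)) ≤
      (Ptn G (m + 1)).ncard * (m + 1) ^ (m + 1) + (m + 1) * Nat.card (Col G m) := by
  have h := card_le_of_cover (A := Col G (m + 1))
    (D := (Ptn G (m + 1) × (Fin (m + 1) → Fin (m + 1))) ⊕ (Fin (m + 1) × Col G m))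
    Subtype.val Subtype.val_injective
    (Sum.elim (fun d v => d.2 (canon d.1 v)) (fun d v => d.1.succAbove (d.2.1 v))) (by
      intro c
      by_cases hc : Function.Surjective c.1
      · obtain ⟨P, hP⟩ := ptn_of_surj c hc
        classical
        refine ⟨Sum.inl (P, fun i => if h : ∃ v, canon P v = i then c.1 h.choose else 0), ?_⟩
        funext v
        have hex : ∃ w, canon P w = canon P v := ⟨v, rfl⟩
        simp only [Sum.elim_inl, dif_pos hex]
        exact hP _ _ ((canon_eq P _ _).1 hex.choose_spec)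
      · unfold Function.Surjective at hc
        push Not at hc
        obtain ⟨i, hi⟩ := hc
        obtain ⟨c', hc'⟩ := miss c.1 i hi
        refine ⟨Sum.inr (i, ⟨c', fun u v huv h => c.2 u v huv ?_⟩), funext hc'⟩
        rw [← hc', ← hc', h])
  simpa [Nat.card_sum, Nat.card_prod, Nat.card_coe_set_eq] using h

omit [Fintype V] [DecidableEq V] in
lemma surj_of_min {G : SimpleGraph V} {m : ℕ} (hm : IsEmpty (Col G m)) (c : Col G (m + 1)) :
    Function.Surjective c.1 := by
  by_contra hc
  unfold Function.Surjective at hc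
  push Not at hc
  obtain ⟨i, hi⟩ := hc
  obtain ⟨c', hc'⟩ := miss c.1 i hi
  exact hm.elim ⟨c', fun u v huv h => c.2 u v huv (by rw [← hc', ← hc', h])⟩

lemma ptn_succ_pos {G : SimpleGraph V} {k : ℕ} (c : Col G k) (hc : Function.Surjective c.1)
    (hk : k < Fintype.card V) : 0 < (Ptn G (k + 1)).ncard := by
  obtain ⟨x, y, hxy, he⟩ := Fintype.exists_ne_map_eq_of_card_lt c.1 (by simpa using hk)
  refine ptn_pos (k := k + 1)
    ⟨fun v => if v = x then Fin.last k else (c.1 v).castSucc, fun u v huv => ?_⟩ ?_
  · by_cases hu : u = x <;> by_cases hv : v = x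
    · exact absurd (hu.trans hv.symm) huv.ne
    · simp only [hu, hv, if_true, if_false]; exact (Fin.castSucc_ne_last _).symm
    · simp only [hu, hv, if_true, if_false]; exact Fin.castSucc_ne_last _
    · simp only [hu, hv, if_false]; exact fun h => c.2 _ _ huv (Fin.castSucc_injective _ h)
  · intro i
    induction i using Fin.lastCases with
    | last => exact ⟨x, by simp⟩
    | cast i =>
      obtain ⟨v, rfl⟩ := hc i
      by_cases hv : v = x
      · exact ⟨y, by simp [hxy.symm, hv, he]⟩
      · exact ⟨v, by simp [hv]⟩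

end Pool.Agent.MP_ee26cf_co
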