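import Pool.Agent.MP_ee26cf_co.Bridge

set_option autoImplicit false

namespace Pool.Agent.MP_ee26cf_co

open Finset

section General

variable {V : Type} [Fintype V] [DecidableEq V]

lemma ptn_of_label {G : SimpleGraph V} {κ : Type} [Fintype κ] {k : ℕ} (hk : Fintype.card κ = k)
    (c : V → κ) (hp : ∀ u v, G.Adj u v → c u ≠ c v) (hc : Function.Surjective c) :
    ∃ P : Ptn G k, ∀ u v, u ∈ P.1.part v ↔ c u = c v := by
  let e := Fintype.equivFinOfCardEq hk
  obtain ⟨P, hP⟩ := ptn_of_surj (G := G) (k := k)
    ⟨fun v => e (c v), fun u v h h' => hp u v h (e.injective h')⟩ (e.surjective.comp hc)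
  refine ⟨P, fun u v => ⟨fun h => e.injective (hP u v h), fun h => ?_⟩⟩
  choose s hs using hc
  have h1 : ∀ w, c w = c (s (c w)) := fun w => (hs _).symm
  let g : Fin k → κ := fun i => if h : ∃ w, canon P w = i then c h.choose else c u
  have hg : ∀ w, g (canon P w) = c w := fun w => by
    have hex : ∃ w', canon P w' = canon P w := ⟨w, rfl⟩
    simp only [g, dif_pos hex]
    exact e.injective (hP _ _ ((canon_eq P _ _).1 hex.choose_spec))
  have gs : Function.Surjective g := fun t => ⟨canon P (s t), by rw [hg, hs]⟩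
  have gi : Function.Injective g :=
    ((Fintype.bijective_iff_surjective_and_card g).2 ⟨gs, by simp [hk]⟩).1
  exact (canon_eq P u v).1 (gi (by rw [hg, hg, h]))

lemma ptn_ext {G : SimpleGraph V} {k : ℕ} {P Q : Ptn G k}
    (h : ∀ u v, u ∈ P.1.part v ↔ u ∈ Q.1.part v) : P = Q := by
  have hp : ∀ v, P.1.part v = Q.1.part v := fun v => Finset.ext fun u => h u v
  apply Subtype.ext
  ext s
  constructor
  · intro hs
    obtain ⟨v, _, rfl⟩ := P.1.part_surjOn hs
    rw [hp]; exact Q.1.part_mem.2 (mem_univ v)
  · intro hs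
    obtain ⟨v, _, rfl⟩ := Q.1.part_surjOn hs
    rw [← hp]; exact P.1.part_mem.2 (mem_univ v)

lemma canon_proper {G : SimpleGraph V} {k : ℕ} (P : Ptn G k) (u v : V) (huv : G.Adj u v) :
    canon P u ≠ canon P v := fun h =>
  P.2.2 _ (P.1.part_mem.2 (mem_univ v)) ((canon_eq P u v).1 h) (P.1.mem_part (mem_univ v))
    huv.ne huv

lemma canon_surj {G : SimpleGraph V} {k : ℕ} (P : Ptn G k) : Function.Surjective (canon P) := by
  intro i
  obtain ⟨⟨s, hs⟩, rfl⟩ := (Finset.equivFinOfCardEq P.2.1).surjective i
  obtain ⟨v, _, rfl⟩ := P.1.part_surjOn hs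
  exact ⟨v, rfl⟩

lemma ptn_iso_le {W : Type} [Fintype W] [DecidableEq W] {G : SimpleGraph V} {H : SimpleGraph W}
    (φ : G ≃g H) (k : ℕ) : (Ptn G k).ncard ≤ (Ptn H k).ncard := by
  have h : ∀ P : Ptn G k, ∃ Q : Ptn H k, ∀ u v, u ∈ Q.1.part v ↔
      canon P (φ.symm u) = canon P (φ.symm v) := fun P =>
    ptn_of_label (Fintype.card_fin k) (fun w => canon P (φ.symm w))
      (fun u v h => canon_proper P _ _ (φ.symm.map_adj_iff.2 h))
      ((canon_surj P).comp φ.symm.surjective)
  choose f hf using h
  rw [← Nat.card_coe_set_eq, ← Nat.card_coe_set_eq]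
  refine Nat.card_le_card_of_injective f fun P Q hPQ => ptn_ext fun u v => ?_
  have h1 := hf P (φ u) (φ v)
  have h2 := hf Q (φ u) (φ v)
  rw [hPQ, h2] at h1
  simp only [RelIso.symm_apply_apply] at h1
  rw [← canon_eq, ← canon_eq, h1]

lemma ptn_iso {W : Type} [Fintype W] [DecidableEq W] {G : SimpleGraph V} {H : SimpleGraph W}
    (φ : G ≃g H) (k : ℕ) : (Ptn G k).ncard = (Ptn H k).ncard :=
  le_antisymm (ptn_iso_le φ k) (ptn_iso_le φ.symm k)

end General

abbrev Ix (q : ℕ) : Type := Fin 3 × Fin q

abbrev Vx (q : ℕ) : Type := Fin 3 ⊕ Ix q ⊕ Ix q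

/-- A triangle with `q` pendant paths of length two at each of its vertices. -/
def tri (q : ℕ) : SimpleGraph (Vx q) where
  Adj u v := match u, v with
    | Sum.inl k, Sum.inl l => k ≠ l
    | Sum.inl k, Sum.inr (Sum.inl x) => x.1 = k
    | Sum.inr (Sum.inl x), Sum.inl k => x.1 = k
    | Sum.inr (Sum.inl x), Sum.inr (Sum.inr y) => x = y
    | Sum.inr (Sum.inr y), Sum.inr (Sum.inl x) => x = y
    | Sum.inl _, Sum.inr (Sum.inr _) => False
    | Sum.inr (Sum.inr _), Sum.inl _ => False
    | Sum.inr (Sum.inl _), Sum.inr (Sum.inl _) => False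
    | Sum.inr (Sum.inr _), Sum.inr (Sum.inr _) => False
  symm := ⟨by
    rintro (k | x | x) (l | y | y) h <;> first | exact h | exact fun e => h e.symm⟩
  loopless := ⟨by rintro (k | x | x) h <;> first | exact h | exact h rfl⟩

lemma same {q k : ℕ} (P : Ptn (tri q)ᶜ k) {u v : Vx q} (h : canon P u = canon P v) :
    u = v ∨ (tri q).Adj u v := by
  by_contra hc
  push Not at hc
  exact canon_proper P u v ⟨hc.1, hc.2⟩ h

lemma tri_upper (q : ℕ) : (Ptn (tri q)ᶜ (3 * q + 2)).ncard ≤ 1024 * (3 * q + 1) := by
  have h := card_le_of_cover (A := Ptn (tri q)ᶜ (3 * q + 2))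
    (D := (Fin 3 → Fin 3 → Prop) × Option (Ix q) × Prop)
    (Z := (Fin 3 → Fin 3 → Prop) × (Ix q → Prop) × (Ix q → Prop))
    (fun P => (fun k l => canon P (.inl k) = canon P (.inl l),
      fun x => canon P (.inl x.1) = canon P (.inr (.inl x)),
      fun x => canon P (.inr (.inl x)) = canon P (.inr (.inr x)))) ?_
    (fun d => (d.1, fun x => d.2.1 = some x ∧ d.2.2, fun x => d.2.1 ≠ some x)) ?_
  · rw [Nat.card_coe_set_eq] at h
    refine h.trans (le_of_eq ?_)
    simp [Nat.card_eq_fintype_card]
    ring
  · intro P Q h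
    simp only [Prod.mk.injEq] at h
    obtain ⟨h1, h2, h3⟩ := h
    have key : ∀ (P Q : Ptn (tri q)ᶜ (3 * q + 2)),
        (∀ k l, canon P (.inl k) = canon P (.inl l) → canon Q (.inl k) = canon Q (.inl l)) →
        (∀ x : Ix q, canon P (.inl x.1) = canon P (.inr (.inl x)) →
          canon Q (.inl x.1) = canon Q (.inr (.inl x))) →
        (∀ x : Ix q, canon P (.inr (.inl x)) = canon P (.inr (.inr x)) →
          canon Q (.inr (.inl x)) = canon Q (.inr (.inr x))) →
        ∀ u v, canon P u = canon P v → canon Q u = canon Q v := by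
      intro P Q g1 g2 g3 u v huv
      rcases same P huv with rfl | ha
      · rfl
      · rcases u with k | x | x <;> rcases v with l | y | y
        · exact g1 _ _ huv
        · obtain rfl : y.1 = k := ha
          exact g2 _ huv
        · exact ha.elim
        · obtain rfl : x.1 = l := ha
          exact (g2 _ huv.symm).symm
        · exact ha.elim
        · obtain rfl : x = y := ha
          exact g3 _ huv
        · exact ha.elim
        · obtain rfl : y = x := ha
          exact (g3 _ huv.symm).symm
        · exact ha.elim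
    refine ptn_ext fun u v => ?_
    rw [← canon_eq, ← canon_eq]
    exact ⟨key P Q (fun k l => (iff_of_eq (congrFun (congrFun h1 k) l)).1)
        (fun x => (iff_of_eq (congrFun h2 x)).1) (fun x => (iff_of_eq (congrFun h3 x)).1) u v,
      key Q P (fun k l => (iff_of_eq (congrFun (congrFun h1 k) l)).2)
        (fun x => (iff_of_eq (congrFun h2 x)).2) (fun x => (iff_of_eq (congrFun h3 x)).2) u v⟩
  · intro P
    have excl : ∀ x : Ix q, canon P (.inl x.1) = canon P (.inr (.inl x)) →
        canon P (.inr (.inl x)) ≠ canon P (.inr (.inr x)) := by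
      intro x h1 h2
      rcases same P (h1.trans h2) with h | h
      · cases h
      · exact h
    have uniq : ∀ x y : Ix q, canon P (.inr (.inl x)) ≠ canon P (.inr (.inr x)) →
        canon P (.inr (.inl y)) ≠ canon P (.inr (.inr y)) → x = y := by
      intro x y hx hy
      by_contra hxy
      obtain ⟨k, hk1, hk2⟩ : ∃ k : Fin 3, x.1 ≠ k ∧ y.1 ≠ k := by
        generalize x.1 = a
        generalize y.1 = b
        revert a b
        decide
      have hinj : Function.Injective (fun z : Ix q ⊕ Unit ⊕ Bool => canon P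
          (Sum.elim (fun z => .inr (.inr z)) (Sum.elim (fun _ => .inl k)
            (fun t => .inr (.inl (if t then x else y)))) z)) := by
        rintro (z | z | z) (w | w | w) h <;> dsimp only [Sum.elim_inl, Sum.elim_inr] at h <;>
          rcases same P h with h' | h'
        · cases h'; rfl
        · exact h'.elim
        · cases h'
        · exact h'.elim
        · cases h'
        · have h'' : (if w then x else y) = z := h'
          cases w <;> simp only [if_true, Bool.false_eq_true, if_false] at h h'' <;> subst h''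
          · exact absurd h.symm hy
          · exact absurd h.symm hx
        · cases h'
        · exact h'.elim
        · rfl
        · rfl
        · cases h'
        · have h'' : (if w then x else y).1 = k := h'
          cases w <;> simp only [if_true, Bool.false_eq_true, if_false] at h''
          · exact absurd h'' hk2
          · exact absurd h'' hk1
        · cases h'
        · have h'' : (if z then x else y) = w := h'
          cases z <;> simp only [if_true, Bool.false_eq_true, if_false] at h h'' <;> subst h''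
          · exact absurd h hy
          · exact absurd h hx
        · cases h'
        · have h'' : (if z then x else y).1 = k := h'
          cases z <;> simp only [if_true, Bool.false_eq_true, if_false] at h''
          · exact absurd h'' hk2
          · exact absurd h'' hk1
        · have h'' : (if z then x else y) = (if w then x else y) := by
            simpa using h'
          cases z <;> cases w <;> simp only [if_true, Bool.false_eq_true, if_false] at h''
          · rfl
          · exact absurd h''.symm hxy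
          · exact absurd h'' hxy
          · rfl
        · exact h'.elim
      have := Fintype.card_le_of_injective _ hinj
      simp at this
    by_cases hD : ∃ x : Ix q, canon P (.inr (.inl x)) ≠ canon P (.inr (.inr x))
    · obtain ⟨x, hx⟩ := hD
      refine ⟨(_, some x, canon P (.inl x.1) = canon P (.inr (.inl x))), Prod.ext rfl
        (Prod.ext (funext fun y => propext ?_) (funext fun y => propext ?_))⟩
      · constructor
        · rintro ⟨h1, h2⟩
          obtain rfl : x = y := Option.some.inj h1
          exact h2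
        · intro h
          obtain rfl : x = y := uniq x y hx (excl y h)
          exact ⟨rfl, h⟩
      · constructor
        · intro h
          by_contra hy
          exact h (congrArg some (uniq x y hx hy))
        · intro h h'
          obtain rfl : x = y := Option.some.inj h'
          exact hx h
    · push Not at hD
      refine ⟨(_, none, False), Prod.ext rfl
        (Prod.ext (funext fun y => propext ?_) (funext fun y => propext ?_))⟩
      · exact ⟨fun h => h.2.elim, fun h => (excl y h (hD y)).elim⟩
      · exact ⟨fun _ => hD y, fun _ h => by cases h⟩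

lemma tri_lower (q : ℕ) : q ^ 3 ≤ (Ptn (tri q)ᶜ (3 * q + 3)).ncard := by
  have h : ∀ i : Fin 3 → Fin q, ∃ P : Ptn (tri q)ᶜ (3 * q + 3), ∀ x : Ix q,
      (.inl x.1 : Vx q) ∈ P.1.part (.inr (.inl x)) ↔ x.2 = i x.1 := by
    intro i
    refine (ptn_of_label (G := (tri q)ᶜ) (κ := Ix q ⊕ Fin 3) (k := 3 * q + 3) (by simp)
      (Sum.elim Sum.inr (Sum.elim (fun x => if x.2 = i x.1 then .inr x.1 else .inl x) Sum.inl))
      ?_ ?_).imp fun P hP x => ?_
    rotate_left 2
    · rw [hP]
      by_cases hx : x.2 = i x.1 <;> simp [hx]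
    · rintro (k | x | x) (l | y | y) ⟨h1, h2⟩ h <;>
        simp only [Sum.elim_inl, Sum.elim_inr] at h
      · exact h1 (by cases h; rfl)
      · split_ifs at h
        · exact h2 (Sum.inr.inj h).symm
      · cases h
      · split_ifs at h
        · exact h2 (Sum.inr.inj h)
      · split_ifs at h with ha hb hb
        · have e : x.1 = y.1 := Sum.inr.inj h
          exact h1 (by rw [Prod.ext e (by rw [ha, hb, e])])
        · exact h1 (by cases h; rfl)
      · split_ifs at h
        · exact h2 (Sum.inl.inj h)
      · cases h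
      · split_ifs at h
        · exact h2 (Sum.inl.inj h).symm
      · exact h1 (by cases h; rfl)
    · rintro (x | k)
      · exact ⟨.inr (.inr x), rfl⟩
      · exact ⟨.inl k, rfl⟩
  choose f hf using h
  have := Nat.card_le_card_of_injective f (fun i i' h => funext fun k => by
    have h1 := (hf i (k, i k)).2 rfl
    rw [h] at h1
    exact (hf i' (k, i k)).1 h1)
  simpa [Nat.card_coe_set_eq] using this

lemma tri_col (q : ℕ) : Nonempty (Col (tri q)ᶜ (3 * q + 1)) ∧ IsEmpty (Col (tri q)ᶜ (3 * q)) := by
  constructor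
  · let e : Option (Ix q) ≃ Fin (3 * q + 1) := Fintype.equivFinOfCardEq (by simp)
    refine ⟨⟨fun v => e (Sum.elim (fun _ => none) (Sum.elim some some) v), ?_⟩⟩
    rintro (k | x | x) (l | y | y) ⟨h1, h2⟩ h <;> have h' := e.injective h <;>
      simp only [Sum.elim_inl, Sum.elim_inr] at h'
    · exact h2 fun e => h1 (by rw [e])
    · cases h'
    · cases h'
    · cases h'
    · exact h1 (by cases h'; rfl)
    · exact h2 (Option.some.inj h')
    · cases h'
    · exact h2 (Option.some.inj h').symm
    · exact h1 (by cases h'; rfl)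
  · refine ⟨fun c => ?_⟩
    have hinj : Function.Injective (fun z : Option (Ix q) =>
        c.1 (z.elim (.inl 0) (fun x => .inr (.inr x)))) := by
      rintro (_ | x) (_ | y) h
      · rfl
      · exact absurd h (c.2 _ _ ⟨by simp, fun h => h⟩)
      · exact absurd h (c.2 _ _ ⟨by simp, fun h => h⟩)
      · by_contra hxy
        exact c.2 (.inr (.inr x)) (.inr (.inr y)) ⟨by simpa using hxy, fun h => h⟩ h
    have := Fintype.card_le_of_injective _ hinj
    simp at this

lemma tri_three {q : ℕ} {u v w : Vx q} (h1 : (tri q).Adj u v) (h2 : (tri q).Adj u w)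
    (h3 : (tri q).Adj v w) : ∃ k, u = .inl k := by
  rcases u with k | x | x
  · exact ⟨k, rfl⟩
  · rcases v with l | y | y <;> rcases w with m | z | z <;>
      first | exact h1.elim | exact h2.elim | exact h3.elim | skip
    exact absurd ((show x.1 = l from h1).symm.trans (show x.1 = m from h2)) h3
  · rcases v with l | y | y <;> rcases w with m | z | z <;>
      first | exact h1.elim | exact h2.elim | exact h3.elim

lemma tri_conn (q : ℕ) : (tri q).Connected := by
  have h0 : ∀ k : Fin 3, (tri q).Reachable (.inl 0) (.inl k) := fun k => by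
    by_cases hk : 0 = k
    · rw [← hk]
    · exact SimpleGraph.Adj.reachable hk
  have h1 : ∀ x : Ix q, (tri q).Reachable (.inl 0) (.inr (.inl x)) := fun x =>
    (h0 x.1).trans (SimpleGraph.Adj.reachable rfl)
  refine (SimpleGraph.connected_iff_exists_forall_reachable _).2 ⟨.inl 0, ?_⟩
  rintro (k | x | x)
  · exact h0 k
  · exact h1 x
  · exact (h1 x).trans (SimpleGraph.Adj.reachable rfl)

lemma tri_edges (q : ℕ) : (tri q).edgeSet.ncard = Fintype.card (Vx q) := by
  let f : Vx q → Sym2 (Vx q) := Sum.elim (fun k => s(.inl k, .inl (k + 1)))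
    (Sum.elim (fun x => s(.inl x.1, .inr (.inl x))) (fun x => s(.inr (.inl x), .inr (.inr x))))
  have hinj : Function.Injective f := by
    rintro (k | x | x) (l | y | y) h <;> simp [f] at h ⊢
    · revert k l; decide
    · exact h.2
    · exact h
  have hr : (tri q).edgeSet = Set.range f := by
    ext e
    induction e using Sym2.ind with
    | _ u v =>
      constructor
      · intro h
        rcases u with k | x | x <;> rcases v with l | y | y
        · have h' : k ≠ l := h
          have : l = k + 1 ∨ k = l + 1 :=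
            (by decide : ∀ k l : Fin 3, k ≠ l → l = k + 1 ∨ k = l + 1) k l h'
          rcases this with rfl | rfl
          · exact ⟨.inl k, rfl⟩
          · exact ⟨.inl l, Sym2.eq_swap⟩
        · obtain rfl : y.1 = k := h
          exact ⟨.inr (.inl y), rfl⟩
        · exact h.elim
        · obtain rfl : x.1 = l := h
          exact ⟨.inr (.inl x), Sym2.eq_swap⟩
        · exact h.elim
        · obtain rfl : x = y := h
          exact ⟨.inr (.inr x), rfl⟩
        · exact h.elim
        · obtain rfl : y = x := h
          exact ⟨.inr (.inr y), Sym2.eq_swap⟩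
        · exact h.elim
      · rintro ⟨w, hw⟩
        rw [← hw]
        rcases w with k | x | x
        · exact (by decide : ∀ k : Fin 3, k ≠ k + 1) k
        · exact (rfl : x.1 = x.1)
        · exact (rfl : x = x)
  rw [hr, ← Set.image_univ, Set.ncard_image_of_injective _ hinj, Set.ncard_univ,
    Nat.card_eq_fintype_card]

theorem one_triangle (K : ℕ) : ∃ (p j : ℕ) (G : SimpleGraph (Fin p)),
    Gᶜ.Connected ∧ Gᶜ.edgeSet.ncard = p ∧ (∃! s : Finset (Fin p), Gᶜ.IsNClique 3 s) ∧
    G.chromaticNumber = (j : ℕ∞) ∧ j + 2 ≤ p ∧ 0 < (Ptn G (j + 1)).ncard ∧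
    K * (Ptn G (j + 1)).ncard ^ 2 < (Ptn G j).ncard * (Ptn G (j + 2)).ncard := by
  obtain ⟨q, hq⟩ := exists_gt (K * 4096 ^ 2)
  have q0 : 0 < q := Nat.zero_lt_of_lt hq
  have ψ := (tri q).overFinIso (n := Fintype.card (Vx q)) rfl
  generalize (tri q).overFin (n := Fintype.card (Vx q)) rfl = H at ψ
  have φ : (tri q)ᶜ ≃g Hᶜ := ⟨ψ.toEquiv, fun {a b} => by
    simp only [SimpleGraph.compl_adj, ne_eq, Equiv.apply_eq_iff_eq]
    exact and_congr Iff.rfl (not_congr ψ.map_adj_iff)⟩
  obtain ⟨⟨c⟩, h2⟩ := tri_col q
  have hs := surj_of_min h2 c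
  have b1 := ptn_pos c hs
  have b2 := ptn_succ_pos c hs (by simp; omega)
  have b2' := tri_upper q
  have b3 := tri_lower q
  refine ⟨Fintype.card (Vx q), 3 * q + 1, Hᶜ, ?_, ?_, ?_, ?_, by simp; omega, ?_, ?_⟩
  · rw [compl_compl]; exact ψ.connected_iff.1 (tri_conn q)
  · rw [compl_compl, ← Nat.card_coe_set_eq, ← Nat.card_congr ψ.mapEdgeSet, Nat.card_coe_set_eq]
    exact tri_edges q
  · rw [compl_compl]
    have hT : H.IsNClique 3 {ψ (.inl 0), ψ (.inl 1), ψ (.inl 2)} := by
      rw [SimpleGraph.is3Clique_triple_iff]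
      refine ⟨ψ.map_adj_iff.2 ?_, ψ.map_adj_iff.2 ?_, ψ.map_adj_iff.2 ?_⟩ <;>
        exact fun h => by cases h
    refine ⟨_, hT, fun s hs => ?_⟩
    refine Finset.eq_of_subset_of_card_le ?_ (by rw [hs.card_eq, hT.card_eq])
    obtain ⟨a, b, d, h1, h2, h3, rfl⟩ := SimpleGraph.is3Clique_iff.1 hs
    have g1 := ψ.symm.map_adj_iff.2 h1
    have g2 := ψ.symm.map_adj_iff.2 h2
    have g3 := ψ.symm.map_adj_iff.2 h3
    have m : ∀ t, (∃ k, ψ.symm t = .inl k) →
        t ∈ ({ψ (.inl 0), ψ (.inl 1), ψ (.inl 2)} : Finset _) := by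
      rintro t ⟨k, hk⟩
      have : t = ψ (.inl k) := by rw [← hk]; simp
      rw [this]
      fin_cases k <;> simp
    intro t ht
    simp only [mem_insert, mem_singleton] at ht
    rcases ht with rfl | rfl | rfl
    · exact m _ (tri_three g1 g2 g3)
    · exact m _ (tri_three g1.symm g3 g2)
    · exact m _ (tri_three g2.symm g3.symm g1)
  · have := (SimpleGraph.chromaticNumber_eq_iff_colorable_not_colorable (G := (tri q)ᶜ)
      (n := 3 * q)).2
      ⟨(colorable_iff _ _).2 ⟨c⟩, fun h => h2.elim ((colorable_iff _ _).1 h).some⟩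
    rw [← SimpleGraph.chromaticNumber_congr φ, this]; push_cast; ring
  · rw [← ptn_iso φ]; exact b2
  · rw [← ptn_iso φ, ← ptn_iso φ, ← ptn_iso φ]
    change K * (Ptn (tri q)ᶜ (3 * q + 2)).ncard ^ 2 <
      (Ptn (tri q)ᶜ (3 * q + 1)).ncard * (Ptn (tri q)ᶜ (3 * q + 3)).ncard
    generalize (Ptn (tri q)ᶜ (3 * q + 1)).ncard = x1 at *
    generalize (Ptn (tri q)ᶜ (3 * q + 2)).ncard = x2 at *
    generalize (Ptn (tri q)ᶜ (3 * q + 3)).ncard = x3 at *
    have h4 : x2 ≤ 4096 * q := by omega
    calc K * x2 ^ 2 ≤ K * (4096 * q) ^ 2 := by gcongr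
      _ = (K * 4096 ^ 2) * q ^ 2 := by ring
      _ < q * q ^ 2 := Nat.mul_lt_mul_of_pos_right hq (by positivity)
      _ = q ^ 3 := by ring
      _ ≤ x3 := b3
      _ ≤ x1 * x3 := Nat.le_mul_of_pos_left _ b1

end Pool.Agent.MP_ee26cf_co
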